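import Mathlib

set_option autoImplicit false

namespace Pool.Agent.Results.MP_0829d4_gt.Roots

open Set Topology

/-- The Hilbert cube. -/
abbrev Q : Type := ℕ → unitInterval

/-- The square `[0,1] × [0,1]`. -/
abbrev Sq : Type := unitInterval × unitInterval

/-- The homotopical disjoint 2-disks property: for every open cover `𝒰` of `X` and any two maps
`f`, `g` of the square to `X` there are homotopies `F`, `G`, which start at `f` and `g`, all whose
tracks lie in single members of `𝒰`, such that the two end maps have disjoint images. -/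
def HDD (X : Type) [TopologicalSpace X] : Prop :=
  ∀ 𝒰 : Set (Set X), (∀ U ∈ 𝒰, IsOpen U) → ⋃₀ 𝒰 = univ → ∀ f g : C(Sq, X),
    ∃ F G : C(Sq × unitInterval, X),
      (∀ p, F (p, 0) = f p) ∧ (∀ p, G (p, 0) = g p) ∧
      (∀ p, ∃ U ∈ 𝒰, ∀ t, F (p, t) ∈ U) ∧ (∀ p, ∃ U ∈ 𝒰, ∀ t, G (p, t) ∈ U) ∧
      ∀ p q, F (p, 1) ≠ G (q, 1)

/-- Q1 for the exponent `n`: every Tychonoff space `X` with the homotopical disjoint 2-disks
property whose power `X^n` is homeomorphic to the Hilbert cube is homeomorphic to it. -/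
def RootQ (n : ℕ) : Prop :=
  ∀ (X : Type) [TopologicalSpace X] [T35Space X], HDD X → Nonempty ((Fin n → X) ≃ₜ Q) →
    Nonempty (X ≃ₜ Q)

/-! ## Powers -/

private def reidx {X : Type} [TopologicalSpace X] {ι κ : Type} (e : ι ≃ κ) :
    (ι → X) ≃ₜ (κ → X) := Homeomorph.piCongrLeft (Y := fun _ => X) e

private theorem pow_omega {X : Type} [TopologicalSpace X] {k : ℕ} (hk : 1 ≤ k)
    (h : Nonempty ((Fin k → X) ≃ₜ Q)) : Nonempty ((ℕ → X) ≃ₜ Q) := by
  obtain ⟨e⟩ := h
  have : NeZero k := ⟨by omega⟩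
  have e1 : (ℕ → X) ≃ₜ (ℕ × Fin k → X) := reidx (Nat.divModEquiv k)
  have e2 : (ℕ × Fin k → X) ≃ₜ (ℕ → Fin k → X) := Homeomorph.piCurry
  have e3 : (ℕ → Fin k → X) ≃ₜ (ℕ → Q) := Homeomorph.piCongrRight fun _ => e
  have e4 : (ℕ → Q) ≃ₜ (ℕ × ℕ → unitInterval) := Homeomorph.piCurry.symm
  have e5 : (ℕ × ℕ → unitInterval) ≃ₜ Q := reidx Nat.pairEquiv
  exact ⟨(((e1.trans e2).trans e3).trans e4).trans e5⟩

private theorem omega_mul {X : Type} [TopologicalSpace X] (ι : Type) [Countable ι] :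
    Nonempty ((ι → X) × (ℕ → X) ≃ₜ (ℕ → X)) := by
  obtain ⟨e⟩ : Nonempty ((ι ⊕ ℕ) ≃ ℕ) := nonempty_equiv_of_countable
  exact ⟨Homeomorph.sumArrowHomeomorphProdArrow.symm.trans (reidx e)⟩

private theorem pow_ge {X : Type} [TopologicalSpace X] {k m : ℕ} (hk : 1 ≤ k) (hm : k ≤ m)
    (h : Nonempty ((Fin k → X) ≃ₜ Q)) : Nonempty ((Fin m → X) ≃ₜ Q) := by
  obtain ⟨a⟩ := pow_omega hk h
  obtain ⟨b⟩ := omega_mul (X := X) (Fin (m - k))
  obtain ⟨e⟩ := h
  have e0 : Fin m ≃ Fin (m - k) ⊕ Fin k :=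
    (finCongr (by omega : m = (m - k) + k)).trans finSumFinEquiv.symm
  have e1 : (Fin m → X) ≃ₜ (Fin (m - k) → X) × (Fin k → X) :=
    (reidx e0).trans Homeomorph.sumArrowHomeomorphProdArrow
  have e2 : (Fin (m - k) → X) × (Fin k → X) ≃ₜ (Fin (m - k) → X) × (ℕ → X) :=
    (Homeomorph.refl _).prodCongr (e.trans a.symm)
  exact ⟨((e1.trans e2).trans b).trans a⟩

/-! ## The space is compact and metrizable -/

private theorem cpt {X : Type} [TopologicalSpace X] {k : ℕ} (hk : 1 ≤ k)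
    (h : Nonempty ((Fin k → X) ≃ₜ Q)) : CompactSpace X := by
  obtain ⟨e⟩ := h
  have hs : Function.Surjective (fun q : Q => e.symm q ⟨0, hk⟩) := by
    intro x
    refine ⟨e (fun _ => x), ?_⟩
    show e.symm (e (fun _ => x)) ⟨0, hk⟩ = x
    rw [e.symm_apply_apply]
  have hc : Continuous (fun q : Q => e.symm q ⟨0, hk⟩) := by fun_prop
  have := isCompact_range hc
  rw [hs.range_eq] at this
  exact ⟨this⟩

private theorem metr {X : Type} [TopologicalSpace X] {k : ℕ} (hk : 1 ≤ k)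
    (h : Nonempty ((Fin k → X) ≃ₜ Q)) : TopologicalSpace.MetrizableSpace X := by
  obtain ⟨e⟩ := h
  have hd : IsEmbedding (fun (x : X) (_ : Fin k) => x) := by
    refine Topology.IsEmbedding.of_leftInverse (f := fun g : Fin k → X => g ⟨0, hk⟩) ?_ ?_ ?_
    · intro x; rfl
    · fun_prop
    · fun_prop
  exact (e.isEmbedding.comp hd).metrizableSpace

/-! ## The disjoint disks property of powers -/

private theorem hdd_pow {X : Type} [TopologicalSpace X] [CompactSpace X]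
    [TopologicalSpace.MetrizableSpace X] (h : HDD X) {m : ℕ} (hm : 1 ≤ m) :
    HDD (Fin m → X) := by
  let _ : MetricSpace X := TopologicalSpace.metrizableSpaceMetric X
  intro 𝒰 hU hcov f g
  obtain ⟨δ, hδ, hleb⟩ := lebesgue_number_lemma_of_metric_sUnion (s := (univ : Set (Fin m → X)))
    isCompact_univ hU hcov.ge
  let i0 : Fin m := ⟨0, hm⟩
  let 𝒱 : Set (Set X) := {V | ∃ c, V = Metric.ball c (δ / 2)}
  have hV : ∀ V ∈ 𝒱, IsOpen V := by rintro V ⟨c, rfl⟩; exact Metric.isOpen_ball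
  have hVcov : ⋃₀ 𝒱 = univ := by
    refine eq_univ_of_forall fun x => ?_
    exact ⟨_, ⟨x, rfl⟩, Metric.mem_ball_self (by positivity)⟩
  let pr : (Fin m → X) → X := fun x => x i0
  have hpr : Continuous pr := continuous_apply i0
  obtain ⟨F, G, hF0, hG0, hF, hG, hdis⟩ := h 𝒱 hV hVcov
    ⟨fun p => f p i0, hpr.comp f.continuous⟩ ⟨fun p => g p i0, hpr.comp g.continuous⟩
  have key : ∀ (φ : C(Sq, Fin m → X)) (Φ : C(Sq × unitInterval, X)),
      (∀ p, Φ (p, 0) = φ p i0) → (∀ p, ∃ V ∈ 𝒱, ∀ t, Φ (p, t) ∈ V) →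
      ∃ Ψ : C(Sq × unitInterval, Fin m → X), (∀ p, Ψ (p, 0) = φ p) ∧
        (∀ p, ∃ U ∈ 𝒰, ∀ t, Ψ (p, t) ∈ U) ∧ ∀ p t, Ψ (p, t) i0 = Φ (p, t) := by
    intro φ Φ h0 hV'
    refine ⟨⟨fun z => Function.update (φ z.1) i0 (Φ z), ?_⟩, ?_, ?_, ?_⟩
    · exact (φ.continuous.comp continuous_fst).update i0 Φ.continuous
    · intro p
      show Function.update (φ p) i0 (Φ (p, 0)) = φ p
      rw [h0, Function.update_eq_self]
    · intro p
      obtain ⟨U, hUU, hball⟩ := hleb (φ p) (mem_univ _)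
      refine ⟨U, hUU, fun t => hball ?_⟩
      show Function.update (φ p) i0 (Φ (p, t)) ∈ Metric.ball (φ p) δ
      rw [Metric.mem_ball, dist_pi_lt_iff hδ]
      intro i
      by_cases hi : i = i0
      · subst hi
        rw [Function.update_self]
        obtain ⟨V, ⟨c, rfl⟩, hVc⟩ := hV' p
        have h1 := hVc t
        have h2 := hVc 0
        rw [h0] at h2
        rw [Metric.mem_ball] at h1 h2
        have := dist_triangle_right (Φ (p, t)) (φ p i0) c
        linarith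
      · rw [Function.update_of_ne hi, dist_self]
        exact hδ
    · intro p t
      show Function.update (φ p) i0 (Φ (p, t)) i0 = _
      rw [Function.update_self]
  obtain ⟨F', hF'0, hF'U, hF'⟩ := key f F hF0 hF
  obtain ⟨G', hG'0, hG'U, hG'⟩ := key g G hG0 hG
  refine ⟨F', G', hF'0, hG'0, hF'U, hG'U, fun p q hpq => ?_⟩
  apply hdis p q
  rw [← hF', ← hG', hpq]

/-! ## The reduction -/

private theorem root_one {X : Type} [TopologicalSpace X] (h : Nonempty ((Fin 1 → X) ≃ₜ Q)) :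
    Nonempty (X ≃ₜ Q) := by
  obtain ⟨e⟩ := h
  exact ⟨(Homeomorph.funUnique (Fin 1) X).symm.trans e⟩

private theorem red {n : ℕ} (hn : 2 ≤ n) (hR : RootQ n) : ∀ k, 1 ≤ k → RootQ k := by
  intro k
  induction k using Nat.strong_induction_on with
  | _ k ih =>
    intro hk X _ _ hX hXk
    rcases Nat.lt_or_ge k 2 with h | h
    · obtain rfl : k = 1 := by omega
      exact root_one hXk
    · obtain ⟨m, hm⟩ : ∃ m, m = (k + 1) / 2 := ⟨_, rfl⟩
      have hm1 : 1 ≤ m := by omega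
      have hmk : m < k := by omega
      have hk2 : k ≤ n * m := by
        have : 2 * m ≤ n * m := Nat.mul_le_mul_right m hn
        omega
      have := cpt hk hXk
      have := metr hk hXk
      refine ih m hmk hm1 X hX (hR (Fin m → X) (hdd_pow hX hm1) ?_)
      obtain ⟨e⟩ := pow_ge hk hk2 hXk
      have e1 : (Fin n → Fin m → X) ≃ₜ (Fin n × Fin m → X) := Homeomorph.piCurry.symm
      exact ⟨(e1.trans (reidx finProdFinEquiv)).trans e⟩

/-- For every `n ≥ 2`: Q1 for the single exponent `n` is equivalent to Q1 for all exponents. -/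
theorem result : ∀ n : ℕ, 2 ≤ n → (RootQ n ↔ ∀ k : ℕ, 1 ≤ k → RootQ k) :=
  fun n hn => ⟨fun hR k hk => red hn hR k hk, fun h => h n (by omega)⟩

end Pool.Agent.Results.MP_0829d4_gt.Roots
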